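import Pool.Agent.H14R3.Aug.Stmts

/-!
TreeA and TreeB of project AUG.
-/

set_option autoImplicit false

namespace Pool.Agent.H851R3.AugT

open Pool.Agent.H14R3.Aug

theorem treeA_step {n : ℕ} (t : Fin n × Bool) (g : G n) :
    (FreeGroup.mk [t] * g).toWord = t :: g.toWord ∨
      (FreeGroup.mk [t] * g).toWord = g.toWord.tail := by
  have h : (FreeGroup.mk [t] * g).toWord = FreeGroup.reduce (t :: g.toWord) := by
    conv_lhs => rw [← FreeGroup.mk_toWord (x := g)]
    rw [FreeGroup.mul_mk, FreeGroup.toWord_mk]
    rfl
  rw [h, FreeGroup.reduce.cons, FreeGroup.reduce_toWord]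
  cases g.toWord with
  | nil => exact Or.inl rfl
  | cons s l =>
    simp only [List.tail_cons]
    split_ifs
    · exact Or.inr rfl
    · exact Or.inl rfl

theorem suffix_tail {α : Type} {a b : List α} (h : a <:+ b) : a.tail <:+ b.tail := by
  obtain ⟨c, rfl⟩ := h
  cases c with
  | nil => exact List.suffix_rfl
  | cons x c =>
    rw [List.cons_append, List.tail_cons]
    exact (List.tail_suffix a).trans (List.suffix_append c a)

theorem treeA_aux {n : ℕ} (w : List (Fin n × Bool)) (g : G n) :
    g.toWord.drop w.length <:+ (FreeGroup.mk w * g).toWord := by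
  induction w with
  | nil =>
    have : (FreeGroup.mk [] : G n) = 1 := rfl
    rw [this, one_mul]
    exact List.suffix_rfl
  | cons t w ih =>
    have h : (FreeGroup.mk (t :: w) * g : G n) = FreeGroup.mk [t] * (FreeGroup.mk w * g) := by
      rw [← mul_assoc, FreeGroup.mul_mk]
      rfl
    rw [h, List.length_cons]
    have h2 : g.toWord.drop (w.length + 1) = (g.toWord.drop w.length).tail := by
      rw [List.tail_drop]
    rw [h2]
    rcases treeA_step t (FreeGroup.mk w * g) with h3 | h3
    · rw [h3]
      exact ((List.tail_suffix _).trans ih).trans (List.suffix_cons t _)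
    · rw [h3]
      exact suffix_tail ih

end Pool.Agent.H851R3.AugT

namespace Pool.Agent.H14R3.Aug

open Pool.Agent.H851R3.AugT

theorem treeA : TreeA := by
  intro n u g
  have := treeA_aux u.toWord g
  rwa [FreeGroup.mk_toWord] at this

theorem treeB : TreeB := by
  intro n g v t hg h
  obtain ⟨l, hl⟩ := List.getLast?_eq_some_iff.1 hg
  have h1 : FreeGroup.IsReduced (l ++ [t]) := by
    rw [← hl]; exact FreeGroup.isReduced_toWord
  have h2 : FreeGroup.IsReduced ([t] ++ v.toWord) := by
    have : [t] ++ v.toWord = (FreeGroup.mk [t] * v).toWord := by rw [h]; rfl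
    rw [this]; exact FreeGroup.isReduced_toWord
  have h3 := h1.append_overlap h2 (by simp)
  rw [FreeGroup.toWord_mul, hl]
  exact h3.reduce_eq

end Pool.Agent.H14R3.Aug
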